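import Mathlib
import Pool.Agent.H29.Shad2

open Pool.Agent.H29.Shad
open scoped ENNReal

namespace Pool.Agent.Results.MP_0764b2_an.Counter

/-- On the space `Y`, whose elements are read as sequences through `ev`, some uniformly bounded
and uniformly invertible family `S` generates a bounded invertible shift operator that has the
shadowing property and is not generalized hyperbolic. -/
def BadShift (𝕜 X Y : Type) [RCLike 𝕜] [NormedAddCommGroup X] [NormedSpace 𝕜 X]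
    [NormedAddCommGroup Y] [NormedSpace 𝕜 Y] (ev : Y → ℤ → X) : Prop :=
  ∃ (S : ℤ → X ≃L[𝕜] X) (C : ℝ) (T T' : Y →L[𝕜] Y),
    (∀ n x, ‖S n x‖ ≤ C * ‖x‖ ∧ ‖(S n).symm x‖ ≤ C * ‖x‖) ∧
    (∀ y n, ev (T y) n = S (n + 1) (ev y (n + 1))) ∧
    (∀ y, T (T' y) = y ∧ T' (T y) = y) ∧ Shadowing T ∧ ¬ GenHyp T T'

theorem result (𝕜 : Type) [RCLike 𝕜] (p : ℝ≥0∞) [Fact (1 ≤ p)] :
    ∃ (X : Type) (_ : NormedAddCommGroup X) (_ : NormedSpace 𝕜 X) (_ : CompleteSpace X),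
      BadShift 𝕜 X (lp (fun _ : ℤ => X) p) (fun y n => y n) := by
  classical
  obtain ⟨E, F, _, _, _, _, _, _, q, hq, hs⟩ := quot (𝕜 := 𝕜)
  have hp : p ≠ 0 := (zero_lt_one.trans_le Fact.out).ne'
  have f4 : (4:𝕜) ≠ 0 := by norm_num
  let D : E × F →L[𝕜] E × F := ((4:𝕜) • ContinuousLinearMap.id 𝕜 E).prodMap ((4:𝕜)⁻¹ • ContinuousLinearMap.id 𝕜 F)
  let D' : E × F →L[𝕜] E × F := ((4:𝕜)⁻¹ • ContinuousLinearMap.id 𝕜 E).prodMap ((4:𝕜) • ContinuousLinearMap.id 𝕜 F)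
  let A : (E × F) ≃L[𝕜] E × F := .equivOfInverse D D' (fun x => by
    simp [D, D', Prod.map, smul_smul, f4]) fun x => by simp [D, D', Prod.map, smul_smul, f4]
  let B : (E × F) ≃L[𝕜] E × F := (ContinuousLinearEquiv.refl 𝕜 E).skewProd (.refl 𝕜 F) q
  let S : ℤ → (E × F) ≃L[𝕜] E × F := fun n => if 2 ≤ n then A else if n = 1 then B else A.symm
  have h1 : ∀ n x, 1 ≤ n → S (n + 1) x = ((4:𝕜) • x.1, (4:𝕜)⁻¹ • x.2) := fun n x h => by
    simp only [S, if_pos (show 2 ≤ n + 1 by omega)]; rfl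
  have h2 : ∀ x, S (0 + 1) x = (x.1, x.2 + q x.1) := fun x => by
    simp only [S, if_neg (show ¬ 2 ≤ (0:ℤ) + 1 by omega), if_pos (zero_add (1:ℤ))]; rfl
  have h3 : ∀ n x, n ≤ -1 → S (n + 1) x = ((4:𝕜)⁻¹ • x.1, (4:𝕜) • x.2) := fun n x h => by
    simp only [S, if_neg (show ¬ 2 ≤ n + 1 by omega), if_neg (show ¬ n + 1 = 1 by omega)]; rfl
  obtain ⟨C, hC⟩ : ∃ C, ∀ n, ‖(S n : E × F →L[𝕜] E × F)‖ ≤ C ∧
      ‖((S n).symm : E × F →L[𝕜] E × F)‖ ≤ C := by
    refine ⟨‖(A : E × F →L[𝕜] E × F)‖ + ‖(A.symm : E × F →L[𝕜] E × F)‖ +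
      ‖(B : E × F →L[𝕜] E × F)‖ + ‖(B.symm : E × F →L[𝕜] E × F)‖, fun n => ?_⟩
    have := norm_nonneg (A : E × F →L[𝕜] E × F)
    have := norm_nonneg (A.symm : E × F →L[𝕜] E × F)
    have := norm_nonneg (B : E × F →L[𝕜] E × F)
    have := norm_nonneg (B.symm : E × F →L[𝕜] E × F)
    simp only [S]
    split_ifs <;> constructor <;> (try rw [ContinuousLinearEquiv.symm_symm]) <;> linarith
  obtain ⟨T, hT⟩ := shiftOp p (fun n => (S (n + 1) : E × F →L[𝕜] E × F)) (fun n => (hC _).1) 1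
  obtain ⟨T', hT'⟩ := shiftOp p (fun n => ((S n).symm : E × F →L[𝕜] E × F)) (fun n => (hC _).2) (-1)
  have i1 : ∀ y, T (T' y) = y := fun y => lp.ext (funext fun n => by simp [hT, hT'])
  have i2 : ∀ y, T' (T y) = y := fun y => lp.ext (funext fun n => by simp [hT, hT'])
  refine ⟨E × F, inferInstance, inferInstance, inferInstance, S, C, T, T', fun n x =>
    ⟨(S n : E × F →L[𝕜] E × F).le_of_opNorm_le (hC n).1 x,
      ((S n).symm : E × F →L[𝕜] E × F).le_of_opNorm_le (hC n).2 x⟩, hT, fun y => ⟨i1 y, i2 y⟩,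
    shadow p (fun n => (S n : E × F →L[𝕜] E × F)) T hT (by norm_num : (0:ℝ) < 30)
      (diag q hq (fun n => S n) h1 h2 h3), fun h => ?_⟩
  obtain ⟨R, hR⟩ := rightInv (ContinuousLinearMap.ext i1) h
  refine hs ((ContinuousLinearMap.fst 𝕜 E F).comp ((lp.evalCLM 𝕜 (fun _ : ℤ => E × F) p 1).comp
    (R.comp ((lp.singleContinuousLinearMap 𝕜 (fun _ : ℤ => E × F) p 0).comp
      (ContinuousLinearMap.inr 𝕜 E F))))) fun f => ?_
  set x := R (lp.single p 0 (0, f)) with hx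
  show q (x 1).1 = f
  have k : ∀ n, S (n + 1) (x (n + 1)) - x n = (lp.single p 0 (0, f) : lp (fun _ : ℤ => E × F) p) n :=
    fun n => by rw [← hR (lp.single p 0 (0, f)), lp.coeFn_sub, Pi.sub_apply, hT]; rfl
  have b : ∀ n, ‖(x n).2‖ ≤ ‖x‖ := fun n => (norm_snd_le _).trans (lp.norm_apply_le_norm hp _ _)
  have v1 : (x (((0:ℕ):ℤ) + 1)).2 = 0 := by
    refine van (𝕜 := 𝕜) (fun i : ℕ => (x (i + 1)).2) (fun i => b _) fun i => ?_
    have := congrArg Prod.snd (k (i + 1))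
    rw [h1 _ _ (by omega), lp.single_apply_ne _ _ _ (by omega)] at this
    simp only [Prod.snd_sub, Prod.snd_zero, sub_eq_zero] at this
    push_cast
    rw [← this, smul_smul, mul_inv_cancel₀ f4, one_smul]
  have v2 : (x (-((0:ℕ):ℤ))).2 = 0 := by
    refine van (𝕜 := 𝕜) (fun i : ℕ => (x (-i)).2) (fun i => b _) fun i => ?_
    have := congrArg Prod.snd (k (-(i + 1)))
    rw [h3 _ _ (by omega), lp.single_apply_ne _ _ _ (by omega),
      show -((i:ℤ) + 1) + 1 = -i by ring] at this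
    simp only [Prod.snd_sub, Prod.snd_zero, sub_eq_zero] at this
    push_cast
    rw [← this]
  have := congrArg Prod.snd (k 0)
  rw [h2, lp.single_apply_self] at this
  simp only [Nat.cast_zero, zero_add, neg_zero] at v1 v2
  simpa [v1, v2] using this

end Pool.Agent.Results.MP_0764b2_an.Counter
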